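import Mathlib

set_option autoImplicit false

namespace Pool.Agent.Results.MP_b12a75_gt.ZFCExample

open Set Topology

/-! ### The notions of the question -/

/-- Functionally closed sets: zero sets of continuous functions into the unit interval. -/
def FunctionallyClosed {X : Type} [TopologicalSpace X] (A : Set X) : Prop :=
  ∃ f : X → ℝ, Continuous f ∧ (∀ x, f x ∈ Icc (0 : ℝ) 1) ∧ A = f ⁻¹' {0}

/-- Sets of the first functionally additive class: countable unions of functionally closed sets. -/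
def FunctionallyAdditive {X : Type} [TopologicalSpace X] (A : Set X) : Prop :=
  ∃ F : ℕ → Set X, (∀ n, FunctionallyClosed (F n)) ∧ A = ⋃ n, F n

/-- The first functional Lebesgue class. -/
def MemK1 {X : Type} [TopologicalSpace X] (f : X → ℝ) : Prop :=
  ∀ V : Set ℝ, IsOpen V → FunctionallyAdditive (f ⁻¹' V)

/-- Bounded functions of the first functional Lebesgue class. -/
def MemK1Star {X : Type} [TopologicalSpace X] (f : X → ℝ) : Prop :=
  MemK1 f ∧ ∃ C : ℝ, ∀ x, |f x| ≤ C

/-- `E` is `K_1`-embedded in `X`. -/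
def K1Embedded {X : Type} [TopologicalSpace X] (E : Set X) : Prop :=
  ∀ f : E → ℝ, MemK1 f → ∃ g : X → ℝ, MemK1 g ∧ ∀ x : E, g x = f x

/-- `E` is `K_1^*`-embedded in `X`. -/
def K1StarEmbedded {X : Type} [TopologicalSpace X] (E : Set X) : Prop :=
  ∀ f : E → ℝ, MemK1Star f → ∃ g : X → ℝ, MemK1Star g ∧ ∀ x : E, g x = f x

/-! ### Closure properties of functionally closed and functionally additive sets -/

section closure_properties

variable {X : Type} [TopologicalSpace X]

lemma FunctionallyClosed.isClosed {A : Set X} (h : FunctionallyClosed A) : IsClosed A := by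
  obtain ⟨f, hf, -, rfl⟩ := h
  exact isClosed_singleton.preimage hf

lemma FunctionallyClosed.of_isClopen {A : Set X} (h : IsClopen A) : FunctionallyClosed A := by
  classical
  refine ⟨Aᶜ.indicator (fun _ => 1), ?_, ?_, ?_⟩
  · exact (continuous_const).indicator (by rw [h.compl.frontier_eq]; simp)
  · intro x
    by_cases hx : x ∈ Aᶜ
    · simp [indicator_of_mem hx]
    · simp [indicator_of_notMem hx]
  · ext x
    by_cases hx : x ∈ A
    · simp [hx]
    · simp [hx]

lemma FunctionallyClosed.iInter {F : ℕ → Set X} (h : ∀ n, FunctionallyClosed (F n)) :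
    FunctionallyClosed (⋂ n, F n) := by
  choose f hf1 hf2 hf3 using h
  have hs : Summable fun n : ℕ => (1 / 2 : ℝ) ^ (n + 1) := by
    have := (summable_geometric_two).mul_left (1 / 2 : ℝ)
    refine this.congr fun n => ?_
    rw [pow_succ]; ring
  have hb : ∀ n x, ‖(1 / 2 : ℝ) ^ (n + 1) * f n x‖ ≤ (1 / 2 : ℝ) ^ (n + 1) := by
    intro n x
    have h1 := hf2 n x
    rw [Real.norm_eq_abs, abs_of_nonneg (mul_nonneg (by positivity) h1.1)]
    exact mul_le_of_le_one_right (by positivity) h1.2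
  have hsx : ∀ x, Summable fun n : ℕ => (1 / 2 : ℝ) ^ (n + 1) * f n x := fun x =>
    Summable.of_norm_bounded hs (fun n => hb n x)
  have hnn : ∀ n x, 0 ≤ (1 / 2 : ℝ) ^ (n + 1) * f n x := fun n x =>
    mul_nonneg (by positivity) (hf2 n x).1
  refine ⟨fun x => ∑' n : ℕ, (1 / 2 : ℝ) ^ (n + 1) * f n x, ?_, ?_, ?_⟩
  · exact continuous_tsum (fun n => continuous_const.mul (hf1 n)) hs hb
  · intro x
    refine ⟨tsum_nonneg fun n => hnn n x, ?_⟩
    have h1 : ∑' n : ℕ, (1 / 2 : ℝ) ^ (n + 1) * f n x ≤ ∑' n : ℕ, (1 / 2 : ℝ) ^ (n + 1) :=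
      (hsx x).tsum_le_tsum (fun n => (le_abs_self _).trans (hb n x)) hs
    have h2 : ∑' n : ℕ, (1 / 2 : ℝ) ^ (n + 1) = 1 := by
      have : ∀ n : ℕ, (1 / 2 : ℝ) ^ (n + 1) = (1 / 2) * (1 / 2 : ℝ) ^ n := fun n => by
        rw [pow_succ]; ring
      simp_rw [this]
      rw [tsum_mul_left, tsum_geometric_two]
      norm_num
    linarith
  · ext x
    rw [mem_iInter, mem_preimage, mem_singleton_iff]
    constructor
    · intro h
      have : ∀ n, (1 / 2 : ℝ) ^ (n + 1) * f n x = 0 := by
        intro n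
        have := h n
        rw [hf3 n] at this
        have h0 : f n x = 0 := this
        rw [h0, mul_zero]
      simp only [this, tsum_zero]
    · intro h n
      have h1 := (hasSum_zero_iff_of_nonneg (fun n => hnn n x)).1 (h ▸ (hsx x).hasSum)
      have h2 : (1 / 2 : ℝ) ^ (n + 1) * f n x = 0 := congrFun h1 n
      have h3 : f n x = 0 := by
        rcases mul_eq_zero.1 h2 with h4 | h4
        · exact absurd h4 (by positivity)
        · exact h4
      rw [hf3 n]
      exact h3

lemma FunctionallyClosed.inter {A B : Set X} (hA : FunctionallyClosed A)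
    (hB : FunctionallyClosed B) : FunctionallyClosed (A ∩ B) := by
  have := FunctionallyClosed.iInter (F := fun n => if n = 0 then A else B) (by
    intro n
    by_cases h : n = 0
    · simpa [h] using hA
    · simpa [h] using hB)
  convert this using 1
  ext x
  simp only [mem_inter_iff, mem_iInter]
  constructor
  · rintro ⟨h1, h2⟩ n
    by_cases h : n = 0
    · simpa [h] using h1
    · simpa [h] using h2
  · intro h
    exact ⟨by simpa using h 0, by simpa using h 1⟩

lemma FunctionallyAdditive.of_closed {A : Set X} (h : FunctionallyClosed A) :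
    FunctionallyAdditive A := ⟨fun _ => A, fun _ => h, (iUnion_const A).symm⟩

lemma FunctionallyAdditive.iUnion {F : ℕ → Set X} (h : ∀ n, FunctionallyAdditive (F n)) :
    FunctionallyAdditive (⋃ n, F n) := by
  choose G hG1 hG2 using h
  refine ⟨fun k => G (Nat.unpair k).1 (Nat.unpair k).2, fun k => hG1 _ _, ?_⟩
  ext x
  simp only [mem_iUnion]
  constructor
  · rintro ⟨n, hn⟩
    rw [hG2 n, mem_iUnion] at hn
    obtain ⟨m, hm⟩ := hn
    exact ⟨Nat.pair n m, by simpa using hm⟩
  · rintro ⟨k, hk⟩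
    exact ⟨(Nat.unpair k).1, by rw [hG2, mem_iUnion]; exact ⟨_, hk⟩⟩

lemma FunctionallyAdditive.union {A B : Set X} (hA : FunctionallyAdditive A)
    (hB : FunctionallyAdditive B) : FunctionallyAdditive (A ∪ B) := by
  have := FunctionallyAdditive.iUnion (F := fun n => if n = 0 then A else B) (by
    intro n
    by_cases h : n = 0
    · simpa [h] using hA
    · simpa [h] using hB)
  convert this using 1
  ext x
  simp only [mem_union, mem_iUnion]
  constructor
  · rintro (h | h)
    · exact ⟨0, by simpa using h⟩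
    · exact ⟨1, by simpa using h⟩
  · rintro ⟨n, hn⟩
    by_cases h : n = 0
    · left; simpa [h] using hn
    · right; simpa [h] using hn

lemma FunctionallyAdditive.inter {A B : Set X} (hA : FunctionallyAdditive A)
    (hB : FunctionallyAdditive B) : FunctionallyAdditive (A ∩ B) := by
  obtain ⟨F, hF, rfl⟩ := hA
  obtain ⟨G, hG, rfl⟩ := hB
  have := FunctionallyAdditive.iUnion (F := fun n => ⋃ m, F n ∩ G m) (fun n =>
    ⟨fun m => F n ∩ G m, fun m => (hF n).inter (hG m), rfl⟩)
  convert this using 1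
  ext x
  simp only [mem_inter_iff, mem_iUnion]
  constructor
  · rintro ⟨⟨n, hn⟩, ⟨m, hm⟩⟩; exact ⟨n, m, hn, hm⟩
  · rintro ⟨n, m, hn, hm⟩; exact ⟨⟨n, hn⟩, ⟨m, hm⟩⟩

lemma FunctionallyAdditive.univ : FunctionallyAdditive (Set.univ : Set X) :=
  .of_closed (.of_isClopen isClopen_univ)

lemma FunctionallyAdditive.empty : FunctionallyAdditive (∅ : Set X) :=
  .of_closed (.of_isClopen isClopen_empty)

end closure_properties

/-! ### Extension of bounded functions from extension of sets -/

section extension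

variable {X : Type} [TopologicalSpace X]

/-- If every subset of `E` is the trace of a functionally ambiguous subset of `X`, then every
bounded function on `E` extends to a bounded function of the first functional Lebesgue class. -/
lemma extend_bounded {E : Set X}
    (hE : ∀ D : Set E, ∃ B : Set X, FunctionallyAdditive B ∧ FunctionallyAdditive Bᶜ ∧
      ∀ x : E, (x : X) ∈ B ↔ x ∈ D)
    (f : E → ℝ) (C : ℝ) (hC : ∀ x, |f x| ≤ C) :
    ∃ g : X → ℝ, MemK1Star g ∧ ∀ x : E, g x = f x := by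
  classical
  -- one approximation step
  choose! T hT1 hT2 hT3 using hE
  have hC0 : ∀ x : E, 0 ≤ C := fun x => (abs_nonneg _).trans (hC x)
  by_cases hCneg : C < 0
  · -- then E is empty
    refine ⟨fun _ => 0, ⟨?_, 0, by simp⟩, fun x => absurd (hC0 x) (not_le.2 hCneg)⟩
    intro V _
    by_cases h : (0 : ℝ) ∈ V
    · have : (fun _ : X => (0 : ℝ)) ⁻¹' V = Set.univ := by ext x; simp [h]
      rw [this]; exact .univ
    · have : (fun _ : X => (0 : ℝ)) ⁻¹' V = ∅ := by ext x; simp [h]
      rw [this]; exact .empty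
  push Not at hCneg
  -- the sequence of remainders on `E`
  let c : ℕ → ℝ := fun n => C * (1 / 2) ^ (n + 1)
  let B : (E → ℝ) → Set X := fun u => T {x | 0 ≤ u x}
  let st : ℕ → (E → ℝ) → (X → ℝ) := fun n u x => if x ∈ B u then c n else - c n
  let R : ℕ → (E → ℝ) := fun n => Nat.rec f (fun n u x => u x - st n u x) n
  have hR0 : R 0 = f := rfl
  have hRs : ∀ n, R (n + 1) = fun x => R n x - st n (R n) x := fun n => rfl
  have hc2 : ∀ n, c (n + 1) + c (n + 1) = c n := by
    intro n
    simp only [c]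
    rw [pow_succ _ (n + 1)]
    ring
  have hcnn : ∀ n, 0 ≤ c n := fun n => mul_nonneg hCneg (by positivity)
  have hRb : ∀ n x, |R n x| ≤ c n + c n := by
    intro n
    induction n with
    | zero =>
      intro x
      rw [hR0]
      refine (hC x).trans (le_of_eq ?_)
      simp only [c]; ring
    | succ n ih =>
      intro x
      rw [hRs]
      have hx := ih x
      rw [abs_le] at hx ⊢
      have h2 := hc2 n
      rcases le_or_gt 0 (R n x) with h0 | h0
      · have hmem : (x : X) ∈ B (R n) := (hT3 _ x).2 h0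
        have : st n (R n) x = c n := by simp [st, hmem]
        simp only [this]
        constructor <;> linarith
      · have hmem : (x : X) ∉ B (R n) := fun h => absurd ((hT3 _ x).1 h) (not_le.2 h0)
        have : st n (R n) x = - c n := by simp [st, hmem]
        simp only [this]
        constructor <;> linarith
  -- the terms and partial sums on `X`
  let t : ℕ → X → ℝ := fun n => st n (R n)
  have htb : ∀ n x, ‖t n x‖ ≤ c n := by
    intro n x
    simp only [t, st, Real.norm_eq_abs]
    split_ifs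
    · rw [abs_of_nonneg (hcnn n)]
    · rw [abs_neg, abs_of_nonneg (hcnn n)]
  have hcs : Summable c := by
    have := (summable_geometric_two).mul_left (C * (1 / 2))
    refine this.congr fun n => ?_
    simp only [c]; rw [pow_succ]; ring
  have hts : ∀ x, Summable fun n => t n x := fun x =>
    Summable.of_norm_bounded hcs (fun n => htb n x)
  let s : ℕ → X → ℝ := fun n x => ∑ k ∈ Finset.range n, t k x
  let g : X → ℝ := fun x => ∑' n, t n x
  have hctail : ∀ n, ∑' k, c (k + n) = c n + c n := by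
    intro n
    have h1 : ∀ k, c (k + n) = (C * (1 / 2) ^ (n + 1)) * (1 / 2) ^ k := by
      intro k
      simp only [c]
      rw [show k + n + 1 = (n + 1) + k by ring, pow_add]
      ring
    simp_rw [h1]
    rw [tsum_mul_left, tsum_geometric_two]
    simp only [c]; ring
  have hgs : ∀ n x, |g x - s n x| ≤ c n + c n := by
    intro n x
    have h1 : g x - s n x = ∑' k, t (k + n) x := by
      have := (hts x).sum_add_tsum_nat_add n
      simp only [g, s]
      linarith
    rw [h1, ← hctail n, ← Real.norm_eq_abs]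
    have hcs' : Summable fun k => c (k + n) := (summable_nat_add_iff n).2 hcs
    exact tsum_of_norm_bounded hcs'.hasSum (fun k => htb _ x)
  have hsE : ∀ n (x : E), f x - s n x = R n x := by
    intro n
    induction n with
    | zero => intro x; simp [s, hR0]
    | succ n ih =>
      intro x
      have h1 : s (n + 1) x = s n x + t n x := by simp only [s]; rw [Finset.sum_range_succ]
      rw [h1, hRs]
      have := ih x
      simp only [t]
      linarith
  have hclim : Filter.Tendsto (fun n => c n + c n) Filter.atTop (𝓝 0) := by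
    have := hcs.tendsto_atTop_zero
    simpa using this.add this
  refine ⟨g, ⟨?_, C, ?_⟩, ?_⟩
  · -- preimages of arbitrary sets under the partial sums
    have hpre : ∀ n (A : Set ℝ), FunctionallyAdditive (s n ⁻¹' A) := by
      intro n
      induction n with
      | zero =>
        intro A
        by_cases h : (0 : ℝ) ∈ A
        · have : s 0 ⁻¹' A = Set.univ := by ext x; simp [s, h]
          rw [this]; exact .univ
        · have : s 0 ⁻¹' A = ∅ := by ext x; simp [s, h]
          rw [this]; exact .empty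
      | succ n ih =>
        intro A
        have h1 : s (n + 1) ⁻¹' A = (B (R n) ∩ s n ⁻¹' {y | y + c n ∈ A}) ∪
            ((B (R n))ᶜ ∩ s n ⁻¹' {y | y - c n ∈ A}) := by
          ext x
          have h2 : s (n + 1) x = s n x + t n x := by simp only [s]; rw [Finset.sum_range_succ]
          simp only [mem_preimage, mem_union, mem_inter_iff, mem_compl_iff, mem_ofPred_eq]
          rw [h2]
          by_cases hx : x ∈ B (R n)
          · have : t n x = c n := by simp [t, st, hx]
            rw [this]; simp [hx]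
          · have : t n x = - c n := by simp [t, st, hx]
            rw [this]; simp [hx, sub_eq_add_neg]
        rw [h1]
        exact ((hT1 _).inter (ih _)).union ((hT2 _).inter (ih _))
    intro V hV
    have h1 : g ⁻¹' V = ⋃ n, s n ⁻¹' {y | Metric.closedBall y (c n + c n) ⊆ V} := by
      ext x
      simp only [mem_preimage, mem_iUnion, mem_ofPred_eq]
      constructor
      · intro hx
        obtain ⟨ε, hε, hεV⟩ := Metric.isOpen_iff.1 hV _ hx
        have := (Metric.tendsto_nhds.1 hclim) (ε / 2) (half_pos hε)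
        obtain ⟨n, hn⟩ := this.exists
        rw [Real.dist_eq, sub_zero, abs_of_nonneg (add_nonneg (hcnn n) (hcnn n))] at hn
        refine ⟨n, fun y hy => hεV ?_⟩
        rw [Metric.mem_closedBall, Real.dist_eq] at hy
        rw [Metric.mem_ball, Real.dist_eq]
        have h2 := hgs n x
        have h3 : |y - g x| ≤ |y - s n x| + |g x - s n x| := by
          have := abs_sub_abs_le_abs_sub (y - s n x) (g x - s n x)
          have h4 : y - g x = (y - s n x) - (g x - s n x) := by ring
          rw [h4]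
          exact abs_sub (y - s n x) (g x - s n x)
        linarith
      · rintro ⟨n, hn⟩
        apply hn
        rw [Metric.mem_closedBall, Real.dist_eq]
        exact hgs n x
    rw [h1]
    exact .iUnion fun n => hpre n _
  · intro x
    have := hgs 0 x
    have hs0 : s 0 x = 0 := by simp [s]
    rw [hs0, sub_zero] at this
    refine this.trans (le_of_eq ?_)
    simp only [c]; ring
  · intro x
    have h1 : ∀ n, |g x - f x| ≤ (c n + c n) + (c n + c n) := by
      intro n
      have h2 := hgs n x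
      have h3 := hRb n x
      rw [← hsE n x] at h3
      have h4 : g x - f x = (g x - s n x) - (f x - s n x) := by ring
      rw [h4]
      exact (abs_sub _ _).trans (add_le_add h2 h3)
    have h5 : Filter.Tendsto (fun n => (c n + c n) + (c n + c n)) Filter.atTop (𝓝 0) := by
      simpa using hclim.add hclim
    have h6 : |g x - f x| ≤ 0 := ge_of_tendsto' h5 h1
    have h7 : g x - f x = 0 := abs_nonpos_iff.1 h6
    linarith

end extension

/-! ### Maximal algebras of sets without finite nonempty members -/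

section algebra

/-- Algebras of subsets of the naturals which separate points and all of whose nonempty members
are infinite. -/
structure GoodAlg (B : Set (Set ℕ)) : Prop where
  univ_mem : Set.univ ∈ B
  compl_mem : ∀ b ∈ B, bᶜ ∈ B
  inter_mem : ∀ b ∈ B, ∀ c ∈ B, b ∩ c ∈ B
  sep : ∀ m n : ℕ, m ≠ n → ∃ b ∈ B, m ∈ b ∧ n ∉ b
  inf : ∀ b ∈ B, b.Nonempty → b.Infinite

lemma exists_good : ∃ B : Set (Set ℕ), GoodAlg B := by
  refine ⟨{b | ∃ k : ℕ, ∀ m n : ℕ, m ≡ n [MOD 2 ^ k] → (m ∈ b ↔ n ∈ b)}, ?_, ?_, ?_, ?_, ?_⟩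
  · exact ⟨0, fun m n _ => by simp⟩
  · rintro b ⟨k, hk⟩
    exact ⟨k, fun m n h => not_congr (hk m n h)⟩
  · rintro b ⟨k, hk⟩ c ⟨l, hl⟩
    refine ⟨max k l, fun m n h => and_congr (hk m n ?_) (hl m n ?_)⟩
    · exact h.of_dvd (pow_dvd_pow 2 (le_max_left k l))
    · exact h.of_dvd (pow_dvd_pow 2 (le_max_right k l))
  · intro m n hmn
    refine ⟨{x | x ≡ m [MOD 2 ^ (m + n)]}, ⟨m + n, fun x y h => ?_⟩, Nat.ModEq.refl m, ?_⟩
    · exact ⟨fun h' => h.symm.trans h', fun h' => h.trans h'⟩
    · intro h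
      have h' : n ≡ m [MOD 2 ^ (m + n)] := h
      have hm : m < 2 ^ (m + n) := lt_of_le_of_lt (Nat.le_add_right m n) Nat.lt_two_pow_self
      have hn : n < 2 ^ (m + n) := lt_of_le_of_lt (Nat.le_add_left n m) Nat.lt_two_pow_self
      unfold Nat.ModEq at h'
      rw [Nat.mod_eq_of_lt hm, Nat.mod_eq_of_lt hn] at h'
      exact hmn h'.symm
  · rintro b ⟨k, hk⟩ ⟨n, hn⟩
    have hinj : Function.Injective fun j : ℕ => n + j * 2 ^ k := by
      intro i j hij
      have : i * 2 ^ k = j * 2 ^ k := Nat.add_left_cancel hij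
      exact Nat.eq_of_mul_eq_mul_right (by positivity) this
    refine (Set.infinite_range_of_injective hinj).mono ?_
    rintro _ ⟨j, rfl⟩
    refine (hk n _ ?_).1 hn
    unfold Nat.ModEq
    simp

lemma exists_maximal_good : ∃ B : Set (Set ℕ), GoodAlg B ∧ ∀ B', GoodAlg B' → B ⊆ B' → B' ⊆ B := by
  obtain ⟨B0, hB0⟩ := exists_good
  have hz : ∀ c ⊆ {B | GoodAlg B}, IsChain (· ⊆ ·) c → c.Nonempty →
      ∃ ub ∈ {B | GoodAlg B}, ∀ s ∈ c, s ⊆ ub := by
    intro c hc hchain hne
    refine ⟨⋃₀ c, ?_, fun s hs => subset_sUnion_of_mem hs⟩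
    obtain ⟨B1, hB1⟩ := hne
    refine ⟨⟨B1, hB1, (hc hB1).univ_mem⟩, ?_, ?_, ?_, ?_⟩
    · rintro b ⟨B2, hB2, hb⟩
      exact ⟨B2, hB2, (hc hB2).compl_mem b hb⟩
    · rintro b ⟨B2, hB2, hb⟩ d ⟨B3, hB3, hd⟩
      rcases hchain.total hB2 hB3 with h | h
      · exact ⟨B3, hB3, (hc hB3).inter_mem b (h hb) d hd⟩
      · exact ⟨B2, hB2, (hc hB2).inter_mem b hb d (h hd)⟩
    · intro m n hmn
      obtain ⟨b, hb, h⟩ := (hc hB1).sep m n hmn
      exact ⟨b, ⟨B1, hB1, hb⟩, h⟩
    · rintro b ⟨B2, hB2, hb⟩ hbne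
      exact (hc hB2).inf b hb hbne
  obtain ⟨B, -, hB⟩ := zorn_subset_nonempty {B | GoodAlg B} hz B0 hB0
  exact ⟨B, hB.prop, fun B' hB' h => hB.2 hB' h⟩

variable {B : Set (Set ℕ)}

lemma GoodAlg.empty_mem (hB : GoodAlg B) : ∅ ∈ B := by
  have := hB.compl_mem _ hB.univ_mem
  rwa [compl_univ] at this

lemma GoodAlg.union_mem (hB : GoodAlg B) {b c : Set ℕ} (hb : b ∈ B) (hc : c ∈ B) : b ∪ c ∈ B := by
  have := hB.compl_mem _ (hB.inter_mem _ (hB.compl_mem _ hb) _ (hB.compl_mem _ hc))
  rwa [compl_inter, compl_compl, compl_compl] at this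

/-- Separation of a point from a finite set. -/
lemma GoodAlg.sep_finset (hB : GoodAlg B) (x : ℕ) (T : Finset ℕ) (hx : x ∉ T) :
    ∃ b ∈ B, x ∈ b ∧ ∀ y ∈ T, y ∉ b := by
  induction T using Finset.induction_on with
  | empty => exact ⟨Set.univ, hB.univ_mem, trivial, by simp⟩
  | insert y T hy ih =>
    rw [Finset.mem_insert, not_or] at hx
    obtain ⟨b, hb, hxb, hbT⟩ := ih hx.2
    obtain ⟨c, hc, hxc, hyc⟩ := hB.sep x y hx.1
    refine ⟨b ∩ c, hB.inter_mem b hb c hc, ⟨hxb, hxc⟩, fun z hz => ?_⟩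
    rcases Finset.mem_insert.1 hz with rfl | hz
    · exact fun h => hyc h.2
    · exact fun h => hbT z hz h.1

/-- Sets splitting all members of a maximal algebra into infinite or empty pieces belong to it. -/
lemma mem_of_split (hB : GoodAlg B) (hmax : ∀ B', GoodAlg B' → B ⊆ B' → B' ⊆ B) (A : Set ℕ)
    (h1 : ∀ b ∈ B, (b ∩ A).Nonempty → (b ∩ A).Infinite)
    (h2 : ∀ b ∈ B, (b \ A).Nonempty → (b \ A).Infinite) : A ∈ B := by
  have hg : GoodAlg {s | ∃ b ∈ B, ∃ c ∈ B, s = (b ∩ A) ∪ (c \ A)} := by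
    refine ⟨?_, ?_, ?_, ?_, ?_⟩
    · refine ⟨_, hB.univ_mem, _, hB.univ_mem, ?_⟩
      ext x; simp
    · rintro _ ⟨b, hb, c, hc, rfl⟩
      refine ⟨_, hB.compl_mem b hb, _, hB.compl_mem c hc, ?_⟩
      ext x; by_cases hx : x ∈ A <;> simp [hx]
    · rintro _ ⟨b, hb, c, hc, rfl⟩ _ ⟨b', hb', c', hc', rfl⟩
      refine ⟨_, hB.inter_mem b hb b' hb', _, hB.inter_mem c hc c' hc', ?_⟩
      ext x; by_cases hx : x ∈ A <;> simp [hx]
    · intro m n hmn
      obtain ⟨b, hb, h⟩ := hB.sep m n hmn
      refine ⟨b, ⟨b, hb, b, hb, (inter_union_sdiff b A).symm⟩, h⟩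
    · rintro _ ⟨b, hb, c, hc, rfl⟩ ⟨x, hx | hx⟩
      · exact (h1 b hb ⟨x, hx⟩).mono subset_union_left
      · exact (h2 c hc ⟨x, hx⟩).mono subset_union_right
  refine hmax _ hg ?_ ⟨_, hB.univ_mem, _, hB.empty_mem, ?_⟩
  · intro b hb
    exact ⟨b, hb, b, hb, (inter_union_sdiff b A).symm⟩
  · simp

/-- If both `D` and its complement are dense in `F`, then the trace of `F ∩ D` on any member of the
algebra is empty or infinite. -/
lemma trace_infinite (hB : GoodAlg B) {F D : Set ℕ}
    (hcon : ∀ b ∈ B, (b ∩ F).Nonempty → (b ∩ F ∩ D).Nonempty ∧ ((b ∩ F) \ D).Nonempty)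
    {b : Set ℕ} (hb : b ∈ B) (hne : (b ∩ (F ∩ D)).Nonempty) : (b ∩ (F ∩ D)).Infinite := by
  intro hfin
  obtain ⟨x, hxb, hxF, hxD⟩ := hne
  have hxT : x ∉ hfin.toFinset.erase x := Finset.notMem_erase x _
  obtain ⟨c, hc, hxc, hcT⟩ := hB.sep_finset x _ hxT
  have hsing : ∀ z, z ∈ b → z ∈ c → z ∈ F → z ∈ D → z = x := by
    intro z hzb hzc hzF hzD
    by_contra hzx
    apply hcT z _ hzc
    rw [Finset.mem_erase, Set.Finite.mem_toFinset]
    exact ⟨hzx, hzb, hzF, hzD⟩
  obtain ⟨y, ⟨⟨hyb, hyc⟩, hyF⟩, hyD⟩ :=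
    (hcon (b ∩ c) (hB.inter_mem b hb c hc) ⟨x, ⟨hxb, hxc⟩, hxF⟩).2
  have hyx : y ≠ x := by rintro rfl; exact hyD hxD
  obtain ⟨d, hd, hyd, hxd⟩ := hB.sep y x hyx
  obtain ⟨z, ⟨⟨⟨hzb, hzc⟩, hzd⟩, hzF⟩, hzD⟩ :=
    (hcon (b ∩ c ∩ d) (hB.inter_mem _ (hB.inter_mem b hb c hc) d hd) ⟨y, ⟨⟨hyb, hyc⟩, hyd⟩, hyF⟩).1
  have := hsing z hzb hzc hzF hzD
  subst this
  exact hxd hzd

/-- Hereditary irresolvability of the topology given by a maximal algebra. -/
lemma irresolvable (hB : GoodAlg B) (hmax : ∀ B', GoodAlg B' → B ⊆ B' → B' ⊆ B) {F D : Set ℕ}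
    (hF : F.Nonempty) (hcl : ∀ n, n ∉ F → ∃ b ∈ B, n ∈ b ∧ b ∩ F = ∅) :
    ∃ b ∈ B, (b ∩ F).Nonempty ∧ (b ∩ F ⊆ D ∨ b ∩ F ⊆ Dᶜ) := by
  by_contra hno
  push Not at hno
  have hcon : ∀ b ∈ B, (b ∩ F).Nonempty → (b ∩ F ∩ D).Nonempty ∧ ((b ∩ F) \ D).Nonempty := by
    intro b hb hne
    obtain ⟨h1, h2⟩ := hno b hb hne
    constructor
    · rw [not_subset] at h2
      obtain ⟨z, hz, hz2⟩ := h2
      exact ⟨z, hz, not_not.1 hz2⟩
    · rw [not_subset] at h1
      obtain ⟨z, hz, hz2⟩ := h1
      exact ⟨z, hz, hz2⟩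
  have hcon' : ∀ b ∈ B, (b ∩ F).Nonempty → (b ∩ F ∩ Dᶜ).Nonempty ∧ ((b ∩ F) \ Dᶜ).Nonempty := by
    intro b hb hne
    obtain ⟨⟨y, hy⟩, ⟨z, hz⟩⟩ := hcon b hb hne
    exact ⟨⟨z, hz.1, hz.2⟩, ⟨y, hy.1, fun h => h hy.2⟩⟩
  have hA : F ∩ D ∈ B := by
    apply mem_of_split hB hmax
    · intro b hb hne
      exact trace_infinite hB hcon hb hne
    · intro b hb hne
      by_cases hbF : b ⊆ F
      · have h3 : b \ (F ∩ D) = b ∩ (F ∩ Dᶜ) := by
          ext x
          constructor
          · rintro ⟨hx, hx2⟩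
            exact ⟨hx, hbF hx, fun h => hx2 ⟨hbF hx, h⟩⟩
          · rintro ⟨hx, hx2, hx3⟩
            exact ⟨hx, fun h => hx3 h.2⟩
        rw [h3] at hne ⊢
        exact trace_infinite hB hcon' hb hne
      · obtain ⟨x, hxb, hxF⟩ := not_subset.1 hbF
        obtain ⟨c, hc, hxc, hcF⟩ := hcl x hxF
        refine (hB.inf (b ∩ c) (hB.inter_mem b hb c hc) ⟨x, hxb, hxc⟩).mono ?_
        rintro y ⟨hyb, hyc⟩
        refine ⟨hyb, fun h => ?_⟩
        have : y ∈ c ∩ F := ⟨hyc, h.1⟩
        rw [hcF] at this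
        exact this
  -- the complement of `F ∩ D` belongs to the algebra and meets `F` only outside `D`
  obtain ⟨x, hx⟩ := hF
  obtain ⟨-, ⟨y, ⟨-, hyF⟩, hyD⟩⟩ := hcon Set.univ hB.univ_mem ⟨x, trivial, hx⟩
  obtain ⟨⟨z, ⟨hz1, hz2⟩, hz3⟩, -⟩ := hcon (F ∩ D)ᶜ (hB.compl_mem _ hA) ⟨y, fun h => hyD h.2, hyF⟩
  exact hz1 ⟨hz2, hz3⟩

end algebra

/-! ### The example -/

section example_space

variable (B : Set (Set ℕ))

/-- The embedding of the naturals, with the topology generated by the algebra `B`, into a Cantor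
cube. -/
noncomputable def emb (n : ℕ) : B → Bool := by
  classical
  exact fun b => decide (n ∈ (b : Set ℕ))

variable {B}

/-- Basic clopen sets of the cube. -/
def cyl (b : B) : Set (B → Bool) := {x | x b = true}

lemma isClopen_cyl (b : B) : IsClopen (cyl b) := by
  have : cyl b = (fun x : B → Bool => x b) ⁻¹' {true} := rfl
  rw [this]
  exact (isClopen_discrete _).preimage (continuous_apply b)

lemma emb_mem_cyl (b : B) (n : ℕ) : emb B n ∈ cyl b ↔ n ∈ (b : Set ℕ) := by
  simp [cyl, emb]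

lemma emb_injective (hB : GoodAlg B) : Function.Injective (emb B) := by
  intro m n hmn
  by_contra hne
  obtain ⟨b, hb, hm, hn⟩ := hB.sep m n hne
  have h1 : emb B m ∈ cyl ⟨b, hb⟩ := (emb_mem_cyl _ _).2 hm
  rw [hmn] at h1
  exact hn ((emb_mem_cyl _ _).1 h1)

/-- Neighbourhoods of points of the copy of the naturals contain traces of members of `B`. -/
lemma exists_cyl (hB : GoodAlg B) {U : Set (B → Bool)} (hU : IsOpen U) {n : ℕ}
    (hn : emb B n ∈ U) : ∃ b ∈ B, n ∈ b ∧ ∀ m ∈ b, emb B m ∈ U := by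
  rw [isOpen_pi_iff] at hU
  obtain ⟨I, u, hu1, hu2⟩ := hU _ hn
  have key : ∀ J : Finset B, J ⊆ I → ∃ b ∈ B, n ∈ b ∧ ∀ m ∈ b, ∀ i ∈ J, emb B m i ∈ u i := by
    intro J
    induction J using Finset.induction_on with
    | empty => intro _; exact ⟨Set.univ, hB.univ_mem, trivial, by simp⟩
    | insert i J hi ih =>
      intro hJ
      obtain ⟨b, hb, hnb, hbJ⟩ := ih fun j hj => hJ (Finset.mem_insert_of_mem hj)
      have hiI := hJ (Finset.mem_insert_self i J)
      by_cases hni : n ∈ (i : Set ℕ)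
      · refine ⟨b ∩ i, hB.inter_mem b hb i i.2, ⟨hnb, hni⟩, fun m hm j hj => ?_⟩
        rcases Finset.mem_insert.1 hj with rfl | hj
        · have h1 : emb B m j = emb B n j := by simp [emb, hm.2, hni]
          rw [h1]; exact (hu1 j hiI).2
        · exact hbJ m hm.1 j hj
      · refine ⟨b ∩ (i : Set ℕ)ᶜ, hB.inter_mem b hb _ (hB.compl_mem _ i.2), ⟨hnb, hni⟩,
          fun m hm j hj => ?_⟩
        rcases Finset.mem_insert.1 hj with rfl | hj
        · have h2 : m ∉ (j : Set ℕ) := hm.2
          have h1 : emb B m j = emb B n j := by simp [emb, h2, hni]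
          rw [h1]; exact (hu1 j hiI).2
        · exact hbJ m hm.1 j hj
  obtain ⟨b, hb, hnb, hb2⟩ := key I Finset.Subset.rfl
  exact ⟨b, hb, hnb, fun m hm => hu2 fun i hi => hb2 m hm i hi⟩

/-- A cozero set `G` is good for `D` if it splits into two functionally additive sets separating
the points of `D` in `G` from the points of the complement of `D` in `G`. -/
def GoodFor (D : Set ℕ) (G : Set (B → Bool)) : Prop :=
  FunctionallyClosed Gᶜ ∧
  ∃ H K : Set (B → Bool), FunctionallyAdditive H ∧ FunctionallyAdditive K ∧ Disjoint H K ∧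
    G = H ∪ K ∧ (∀ n ∈ D, emb B n ∉ K) ∧ (∀ n, n ∉ D → emb B n ∉ H)

lemma GoodFor.iUnion {D : Set ℕ} {G : ℕ → Set (B → Bool)} (h : ∀ n, GoodFor D (G n)) :
    GoodFor D (⋃ n, G n) := by
  classical
  choose hcl H K hH hK hHK hG hHD hKD using h
  -- the complement of the union of the previous sets
  let P : ℕ → Set (B → Bool) := fun n => ⋂ m, if m < n then (G m)ᶜ else Set.univ
  have hP : ∀ n, FunctionallyClosed (P n) := by
    intro n
    refine .iInter fun m => ?_
    by_cases hm : m < n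
    · simpa [hm] using hcl m
    · simpa [hm] using FunctionallyClosed.of_isClopen (X := B → Bool) isClopen_univ
  have hPmem : ∀ n x, x ∈ P n ↔ ∀ m < n, x ∉ G m := by
    intro n x
    simp only [P, mem_iInter]
    constructor
    · intro hx m hm
      have := hx m
      simpa [hm] using this
    · intro hx m
      by_cases hm : m < n
      · simpa [hm] using hx m hm
      · simp [hm]
  refine ⟨by rw [compl_iUnion]; exact .iInter hcl,
    ⋃ n, P n ∩ H n, ⋃ n, P n ∩ K n, .iUnion fun n => .inter (.of_closed (hP n)) (hH n),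
    .iUnion fun n => .inter (.of_closed (hP n)) (hK n), ?_, ?_, ?_, ?_⟩
  · rw [disjoint_left]
    intro x hx1 hx2
    obtain ⟨n, hn1, hn2⟩ := mem_iUnion.1 hx1
    obtain ⟨m, hm1, hm2⟩ := mem_iUnion.1 hx2
    rw [hPmem] at hn1 hm1
    have hnG : x ∈ G n := by rw [hG n]; exact Or.inl hn2
    have hmG : x ∈ G m := by rw [hG m]; exact Or.inr hm2
    have hnm : n = m := by
      rcases lt_trichotomy n m with h1 | h1 | h1
      · exact absurd hnG (hm1 n h1)
      · exact h1
      · exact absurd hmG (hn1 m h1)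
    subst hnm
    exact disjoint_left.1 (hHK n) hn2 hm2
  · ext x
    simp only [mem_iUnion, mem_union]
    constructor
    · rintro ⟨n, hn⟩
      have hex : ∃ n, x ∈ G n := ⟨n, hn⟩
      have hmem := Nat.find_spec hex
      have hPx : x ∈ P (Nat.find hex) := (hPmem _ _).2 fun m hm => Nat.find_min hex hm
      rw [hG] at hmem
      rcases hmem with h1 | h1
      · left; exact ⟨_, hPx, h1⟩
      · right; exact ⟨_, hPx, h1⟩
    · rintro (⟨n, -, hn⟩ | ⟨n, -, hn⟩)
      · exact ⟨n, by rw [hG n]; exact Or.inl hn⟩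
      · exact ⟨n, by rw [hG n]; exact Or.inr hn⟩
  · intro n hn hx
    obtain ⟨m, -, hm⟩ := mem_iUnion.1 hx
    exact hHD m n hn hm
  · intro n hn hx
    obtain ⟨m, -, hm⟩ := mem_iUnion.1 hx
    exact hKD m n hn hm

lemma GoodFor.empty (D : Set ℕ) : GoodFor D (∅ : Set (B → Bool)) :=
  ⟨by rw [compl_empty]; exact .of_isClopen isClopen_univ, ∅, ∅, .empty, .empty, by simp, by simp,
    by simp, by simp⟩

/-- Adding a cylinder on which everything outside `G` is on one side. -/
lemma GoodFor.union_cyl {D : Set ℕ} {G : Set (B → Bool)} (h : GoodFor D G) (b : B)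
    (hb : (∀ n ∈ (b : Set ℕ), emb B n ∉ G → n ∈ D) ∨ (∀ n ∈ (b : Set ℕ), emb B n ∉ G → n ∉ D)) :
    GoodFor D (G ∪ cyl b) := by
  obtain ⟨hcl, H, K, hH, hK, hHK, hG, hHD, hKD⟩ := h
  have hclopen := isClopen_cyl b
  have hadd : FunctionallyAdditive (cyl b ∩ Gᶜ) :=
    .of_closed ((FunctionallyClosed.of_isClopen hclopen).inter hcl)
  have hsub : ∀ L : Set (B → Bool), L ⊆ G → Disjoint L (cyl b ∩ Gᶜ) := by
    intro L hL
    rw [disjoint_left]
    exact fun x hx hx2 => hx2.2 (hL hx)
  have hHG : H ⊆ G := by rw [hG]; exact subset_union_left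
  have hKG : K ⊆ G := by rw [hG]; exact subset_union_right
  have hcompl : FunctionallyClosed (G ∪ cyl b)ᶜ := by
    rw [compl_union]
    exact hcl.inter (.of_isClopen hclopen.compl)
  rcases hb with hb | hb
  · refine ⟨hcompl, H ∪ (cyl b ∩ Gᶜ), K, hH.union hadd, hK, ?_, ?_, hHD, ?_⟩
    · rw [disjoint_union_left]
      exact ⟨hHK, (hsub K hKG).symm⟩
    · ext x
      by_cases hx : x ∈ G
      · have hx' := hx
        rw [hG] at hx'
        rcases hx' with h1 | h1 <;> simp [hx, h1]
      · have hxK : x ∉ K := fun h => hx (hKG h)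
        have hxH : x ∉ H := fun h => hx (hHG h)
        simp [hx, hxK, hxH]
    · rintro n hn (h1 | ⟨h1, h2⟩)
      · exact hKD n hn h1
      · exact hn (hb n ((emb_mem_cyl _ _).1 h1) h2)
  · refine ⟨hcompl, H, K ∪ (cyl b ∩ Gᶜ), hH, hK.union hadd, ?_, ?_, ?_, hKD⟩
    · rw [disjoint_union_right]
      exact ⟨hHK, hsub H hHG⟩
    · ext x
      by_cases hx : x ∈ G
      · have hx' := hx
        rw [hG] at hx'
        rcases hx' with h1 | h1 <;> simp [hx, h1]
      · have hxK : x ∉ K := fun h => hx (hKG h)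
        have hxH : x ∉ H := fun h => hx (hHG h)
        simp [hx, hxK, hxH]
    · rintro n hn (h1 | ⟨h1, h2⟩)
      · exact hHD n hn h1
      · exact hb n ((emb_mem_cyl _ _).1 h1) h2 hn

/-- There is a good set containing the whole copy of the naturals. -/
lemma exists_goodFor (hB : GoodAlg B) (hmax : ∀ B', GoodAlg B' → B ⊆ B' → B' ⊆ B) (D : Set ℕ) :
    ∃ G : Set (B → Bool), GoodFor D G ∧ ∀ n, emb B n ∈ G := by
  classical
  -- a good set for every point which lies in some good set
  have h1 : ∀ n, ∃ G : Set (B → Bool), GoodFor D G ∧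
      ((∃ G' : Set (B → Bool), GoodFor D G' ∧ emb B n ∈ G') → emb B n ∈ G) := by
    intro n
    by_cases h : ∃ G' : Set (B → Bool), GoodFor D G' ∧ emb B n ∈ G'
    · obtain ⟨G', hG', hn⟩ := h
      exact ⟨G', hG', fun _ => hn⟩
    · exact ⟨∅, .empty D, fun h' => absurd h' h⟩
  choose G hG1 hG2 using h1
  have hU : GoodFor D (⋃ n, G n) := .iUnion hG1
  have hUmax : ∀ (G' : Set (B → Bool)) (n : ℕ), GoodFor D G' → emb B n ∈ G' →
      emb B n ∈ ⋃ n, G n := fun G' n hG' hn => mem_iUnion.2 ⟨n, hG2 n ⟨G', hG', hn⟩⟩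
  refine ⟨⋃ n, G n, hU, ?_⟩
  by_contra hcon
  push Not at hcon
  obtain ⟨n0, hn0⟩ := hcon
  let F : Set ℕ := {n | emb B n ∉ ⋃ n, G n}
  have hopen : IsOpen (⋃ n, G n) := by
    have := hU.1.isClosed
    rw [isClosed_compl_iff] at this
    exact this
  obtain ⟨b, hb, ⟨n, hnb, hnF⟩, hbF⟩ := irresolvable (F := F) (D := D) hB hmax ⟨n0, hn0⟩ (by
    intro n hn
    have hn' : emb B n ∈ ⋃ n, G n := not_not.1 hn
    obtain ⟨b, hb, hnb, hb2⟩ := exists_cyl hB hopen hn'
    refine ⟨b, hb, hnb, ?_⟩
    rw [eq_empty_iff_forall_notMem]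
    rintro m ⟨hmb, hmF⟩
    exact hmF (hb2 m hmb))
  have hgood : GoodFor D ((⋃ n, G n) ∪ cyl ⟨b, hb⟩) := by
    apply hU.union_cyl
    rcases hbF with h | h
    · left; exact fun m hm hmG => h ⟨hm, hmG⟩
    · right; exact fun m hm hmG => h ⟨hm, hmG⟩
  exact hnF (hUmax _ n hgood (Or.inr ((emb_mem_cyl _ _).2 hnb)))

end example_space

/-- **Main result.** There is a compact Hausdorff space with a countable subspace which is
`K_1^*`-embedded but not `K_1`-embedded. -/
theorem result : ∃ (X : Type) (_ : TopologicalSpace X) (E : Set X),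
    CompactSpace X ∧ T2Space X ∧ E.Countable ∧ K1StarEmbedded E ∧ ¬ K1Embedded E := by
  classical
  obtain ⟨B, hB, hmax⟩ := exists_maximal_good
  have hinj := emb_injective hB
  refine ⟨B → Bool, inferInstance, Set.range (emb B), inferInstance, inferInstance,
    Set.countable_range _, ?_, ?_⟩
  · -- the bounded extension property
    rintro f ⟨-, C, hC⟩
    refine extend_bounded ?_ f C hC
    intro D
    obtain ⟨G, ⟨hcl, H, K, hH, hK, hHK, hG, hHD, hKD⟩, hGn⟩ :=
      exists_goodFor hB hmax {n | (⟨emb B n, n, rfl⟩ : Set.range (emb B)) ∈ D}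
    refine ⟨H, hH, ?_, ?_⟩
    · have : Hᶜ = Gᶜ ∪ K := by
        ext x
        rw [hG]
        have h0 : x ∈ H → x ∉ K := fun h => disjoint_left.1 hHK h
        simp only [mem_compl_iff, mem_union, not_or]
        tauto
      rw [this]
      exact (FunctionallyAdditive.of_closed hcl).union hK
    · rintro ⟨_, n, rfl⟩
      constructor
      · intro h
        by_contra hn
        exact hKD n hn h
      · intro h
        have h1 := hGn n
        rw [hG] at h1
        rcases h1 with h1 | h1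
        · exact h1
        · exact absurd h1 (hHD n h)
  · -- the index function does not extend
    intro hE
    let f : Set.range (emb B) → ℝ := fun x => (Classical.choose x.2 : ℕ)
    have hf : ∀ n, f ⟨emb B n, n, rfl⟩ = n := by
      intro n
      have : emb B (Classical.choose (⟨emb B n, n, rfl⟩ : Set.range (emb B)).2) = emb B n :=
        Classical.choose_spec (⟨emb B n, n, rfl⟩ : Set.range (emb B)).2
      have h2 := hinj this
      exact congrArg (fun k : ℕ => (k : ℝ)) h2
    -- points of `E` are functionally closed in `E`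
    have hpt : ∀ x : Set.range (emb B), FunctionallyClosed ({x} : Set (Set.range (emb B))) := by
      rintro ⟨_, n, rfl⟩
      have hex : ∀ m, ∃ Z : Set (Set.range (emb B)), FunctionallyClosed Z ∧
          (⟨emb B n, n, rfl⟩ : Set.range (emb B)) ∈ Z ∧
          (m ≠ n → (⟨emb B m, m, rfl⟩ : Set.range (emb B)) ∉ Z) := by
        intro m
        by_cases hmn : m = n
        · exact ⟨Set.univ, .of_isClopen isClopen_univ, trivial, fun h => absurd hmn h⟩
        · obtain ⟨b, hb, hnb, hmb⟩ := hB.sep n m (Ne.symm hmn)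
          refine ⟨Subtype.val ⁻¹' (cyl ⟨b, hb⟩),
            .of_isClopen ((isClopen_cyl _).preimage continuous_subtype_val), ?_, fun _ => ?_⟩
          · exact (emb_mem_cyl _ _).2 hnb
          · exact fun h => hmb ((emb_mem_cyl _ _).1 h)
      choose Z hZ1 hZ2 hZ3 using hex
      have : ({⟨emb B n, n, rfl⟩} : Set (Set.range (emb B))) = ⋂ m, Z m := by
        ext x
        rw [mem_singleton_iff, mem_iInter]
        constructor
        · rintro rfl m; exact hZ2 m
        · intro hx
          obtain ⟨y, m, rfl⟩ := x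
          by_contra hne
          apply hZ3 m _ (hx m)
          rintro rfl
          exact hne rfl
      rw [this]
      exact .iInter hZ1
    have hfK : MemK1 f := by
      intro V _
      have h1 : f ⁻¹' V = ⋃ n : ℕ, if (n : ℝ) ∈ V then {⟨emb B n, n, rfl⟩} else ∅ := by
        ext x
        obtain ⟨_, n, rfl⟩ := x
        rw [mem_preimage, hf n, mem_iUnion]
        constructor
        · intro h
          exact ⟨n, by simp [h]⟩
        · rintro ⟨m, hm⟩
          by_cases hmV : (m : ℝ) ∈ V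
          · rw [if_pos hmV, mem_singleton_iff] at hm
            have hnm : n = m := hinj (congrArg Subtype.val hm)
            rw [hnm]; exact hmV
          · rw [if_neg hmV] at hm; exact absurd hm (notMem_empty _)
      rw [h1]
      refine .iUnion fun n => ?_
      by_cases hnV : (n : ℝ) ∈ V
      · rw [if_pos hnV]; exact .of_closed (hpt _)
      · rw [if_neg hnV]; exact .empty
    obtain ⟨g, hg, hgf⟩ := hE f hfK
    have hgn : ∀ n, g (emb B n) = n := fun n => (hgf ⟨emb B n, n, rfl⟩).trans (hf n)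
    -- Baire category in the closure of the copy of the naturals
    let Y : Set (B → Bool) := closure (Set.range (emb B))
    have hYc : IsCompact Y := isClosed_closure.isCompact
    have : CompactSpace Y := isCompact_iff_compactSpace.1 hYc
    have hYne : Nonempty Y := ⟨⟨emb B 0, subset_closure ⟨0, rfl⟩⟩⟩
    have hA : ∀ N : ℕ, FunctionallyAdditive (g ⁻¹' Ioo (-(N : ℝ)) N) := fun N => hg _ isOpen_Ioo
    choose F hF1 hF2 using hA
    have hcov : (⋃ k : ℕ, (Subtype.val ⁻¹' (F (Nat.unpair k).1 (Nat.unpair k).2) : Set Y)) =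
        Set.univ := by
      rw [eq_univ_iff_forall]
      intro y
      obtain ⟨N, hN⟩ := exists_nat_gt |g y|
      have hy : (y : B → Bool) ∈ g ⁻¹' Ioo (-(N : ℝ)) N := abs_lt.1 hN
      rw [hF2 N, mem_iUnion] at hy
      obtain ⟨m, hm⟩ := hy
      rw [mem_iUnion]
      refine ⟨Nat.pair N m, ?_⟩
      simpa using hm
    obtain ⟨k, y, hy⟩ := nonempty_interior_of_iUnion_of_closed
      (fun k => ((hF1 (Nat.unpair k).1 (Nat.unpair k).2).isClosed.preimage
        continuous_subtype_val : IsClosed (Subtype.val ⁻¹' (F (Nat.unpair k).1 (Nat.unpair k).2) :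
          Set Y))) hcov
    obtain ⟨W, hW1, hW2, hW3⟩ := mem_interior.1 hy
    obtain ⟨U, hU, rfl⟩ := isOpen_induced_iff.1 hW2
    obtain ⟨_, hxU, n, rfl⟩ := mem_closure_iff.1 y.2 U hU hW3
    obtain ⟨b, hb, hnb, hb2⟩ := exists_cyl hB hU hxU
    obtain ⟨m, hmb, hm⟩ := (hB.inf b hb ⟨n, hnb⟩).exists_gt (Nat.unpair k).1
    have hmY : (⟨emb B m, subset_closure ⟨m, rfl⟩⟩ : Y) ∈ Subtype.val ⁻¹' U := hb2 m hmb
    have h1 : emb B m ∈ F (Nat.unpair k).1 (Nat.unpair k).2 := hW1 hmY
    have h2 : emb B m ∈ g ⁻¹' Ioo (-((Nat.unpair k).1 : ℝ)) ((Nat.unpair k).1 : ℝ) := by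
      rw [hF2, mem_iUnion]
      exact ⟨_, h1⟩
    have h3 : g (emb B m) < ((Nat.unpair k).1 : ℝ) := h2.2
    rw [hgn m] at h3
    exact absurd (Nat.cast_lt.1 h3) (not_lt.2 hm.le)

end Pool.Agent.Results.MP_b12a75_gt.ZFCExample
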